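import Pool.Agent.H488.CC.Real

/-!
# Equivariant maps to complexes from partitions of unity
-/

set_option autoImplicit false

namespace Pool.Agent.H488.CC

open Set Topology

variable {X V : Type} [TopologicalSpace X]

/-- the nerve of a family of functions: the finite sets of indices of functions which are positive at some
common point -/
def nerve (φ : V → X → ℝ) : Set (Finset V) := {σ | σ.Nonempty ∧ ∃ x, ∀ v ∈ σ, φ v x ≠ 0}

/-- the map to the nerve -/
theorem exists_map {φ : V → X → ℝ} (hc : ∀ v, Continuous (φ v)) (h0 : ∀ v x, 0 ≤ φ v x)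
    (hl : LocallyFinite fun v => Function.support (φ v)) (h1 : ∀ x, ∑ᶠ v, φ v x = 1) :
    ∃ s : X → Realiz (nerve φ), Continuous s ∧ ∀ x v, (s x).1 v = φ v x := by
  classical
  have hfin : ∀ x, (Function.support fun v => φ v x).Finite := fun x => hl.point_finite x
  have hmem : ∀ x, ∃ σ ∈ nerve φ, (∀ v, 0 ≤ φ v x) ∧ (∀ v, v ∉ σ → φ v x = 0) ∧ ∑ v ∈ σ, φ v x = 1 := by
    intro x
    have h2 : ∑ v ∈ (hfin x).toFinset, φ v x = 1 := by
      rw [← h1 x]
      exact (finsum_eq_sum _ (hfin x)).symm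
    refine ⟨(hfin x).toFinset, ⟨?_, x, fun v hv => ?_⟩, fun v => h0 v x, fun v hv => ?_, h2⟩
    · rw [Finset.nonempty_iff_ne_empty]
      intro h
      rw [h, Finset.sum_empty] at h2
      exact zero_ne_one h2
    · exact (hfin x).mem_toFinset.1 hv
    · by_contra hcon
      exact hv ((hfin x).mem_toFinset.2 hcon)
  let s : X → Realiz (nerve φ) := fun x => ⟨fun v => φ v x, hmem x⟩
  refine ⟨s, ?_, fun x v => rfl⟩
  rw [continuous_iff_continuousAt]
  intro x
  obtain ⟨U, hU, hUf⟩ := hl x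
  let A : Finset V := hUf.toFinset
  have hA : ∀ z ∈ U, ∀ v, v ∉ A → φ v z = 0 := by
    intro z hz v hv
    by_contra hcon
    exact hv (hUf.mem_toFinset.2 ⟨z, hcon, hz⟩)
  -- the closed pieces
  let C : Finset V → Set X := fun τ => {z | ∀ v ∈ A, v ∉ τ → φ v z = 0}
  have hCc : ∀ τ, IsClosed (C τ) := by
    intro τ
    have : C τ = ⋂ v ∈ A, ⋂ _ : v ∉ τ, {z | φ v z = 0} := by
      ext z
      simp only [C, mem_iInter]
      rfl
    rw [this]
    exact isClosed_biInter fun v _ => isClosed_iInter fun _ => isClosed_eq (hc v) continuous_const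
  let T : Finset (Finset V) := A.powerset.filter fun τ => τ ∈ nerve φ
  have hcov : U ⊆ ⋃ τ ∈ T, C τ ∩ U := by
    intro z hz
    obtain ⟨σ, hσ, hh⟩ := hmem z
    have h4 : ∃ τ ∈ nerve φ, τ ⊆ A ∧ ∀ v, v ∉ τ → φ v z = 0 := by
      refine ⟨(hfin z).toFinset, ?_, ?_, ?_⟩
      · refine ⟨?_, z, fun v hv => (hfin z).mem_toFinset.1 hv⟩
        rw [Finset.nonempty_iff_ne_empty]
        intro h
        have h5 : ∑ v ∈ (hfin z).toFinset, φ v z = 1 := by
          rw [← h1 z]
          exact (finsum_eq_sum _ (hfin z)).symm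
        rw [h, Finset.sum_empty] at h5
        exact zero_ne_one h5
      · intro v hv
        by_contra hcon
        exact (hfin z).mem_toFinset.1 hv (hA z hz v hcon)
      · intro v hv
        by_contra hcon
        exact hv ((hfin z).mem_toFinset.2 hcon)
    obtain ⟨τ, h5, h6, h7⟩ := h4
    exact mem_iUnion₂.2 ⟨τ, Finset.mem_filter.2 ⟨Finset.mem_powerset.2 h6, h5⟩, fun v _ hv => h7 v hv, hz⟩
  have hpc : ∀ τ ∈ T, ContinuousOn s (C τ ∩ U) := by
    intro τ hτ
    have hτn : τ ∈ nerve φ := (Finset.mem_filter.1 hτ).2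
    rw [continuousOn_iff_continuous_domRestrict]
    have hz : ∀ z : ↥(C τ ∩ U), (∀ v, 0 ≤ φ v z) ∧ (∀ v, v ∉ τ → φ v z = 0) ∧ ∑ v ∈ τ, φ v z = 1 := by
      intro z
      have h8 : ∀ v, v ∉ τ → φ v z.1 = 0 := by
        intro v hv
        by_cases h9 : v ∈ A
        · exact z.2.1 v h9 hv
        · exact hA z.1 z.2.2 v h9
      refine ⟨fun v => h0 v z, h8, ?_⟩
      rw [← h1 z.1]
      symm
      refine finsum_eq_sum_of_support_subset _ fun v hv => ?_
      by_contra hcon
      exact hv (h8 v hcon)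
    have h9 : Continuous fun z : ↥(C τ ∩ U) => (⟨fun v => φ v z, hz z⟩ : Cell τ) :=
      Continuous.subtype_mk (continuous_pi fun v => (hc v).comp continuous_subtype_val) _
    exact (continuous_incl (⟨τ, hτn⟩ : nerve φ)).comp h9
  -- gluing
  have h10 : ∀ τ ∈ T, ContinuousWithinAt s (C τ ∩ U) x := by
    intro τ hτ
    by_cases h11 : x ∈ C τ
    · exact hpc τ hτ x ⟨h11, mem_of_mem_nhds hU⟩
    · have h12 : (C τ)ᶜ ∈ 𝓝 x := (hCc τ).isOpen_compl.mem_nhds h11
      have h13 : 𝓝[C τ ∩ U] x = ⊥ := by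
        rw [← Filter.empty_mem_iff_bot]
        have h14 : (C τ)ᶜ ∩ (C τ ∩ U) ∈ 𝓝[C τ ∩ U] x :=
          Filter.inter_mem (mem_nhdsWithin_of_mem_nhds h12) self_mem_nhdsWithin
        have h15 : (C τ)ᶜ ∩ (C τ ∩ U) = ∅ := by
          ext z
          constructor
          · rintro ⟨h16, h17, _⟩
            exact absurd h17 h16
          · intro h; exact absurd h (notMem_empty z)
        rwa [h15] at h14
      show Filter.Tendsto s (𝓝[C τ ∩ U] x) _
      rw [h13]
      exact Filter.tendsto_bot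
  have h18 : ContinuousWithinAt s (⋃ τ ∈ T, C τ ∩ U) x := by
    show Filter.Tendsto s (𝓝[⋃ τ ∈ T, C τ ∩ U] x) (𝓝 (s x))
    have h19 : 𝓝[⋃ τ ∈ T, C τ ∩ U] x = ⨆ τ ∈ T, 𝓝[C τ ∩ U] x := by
      have := nhdsWithin_biUnion (I := (T : Set (Finset V))) T.finite_toSet (fun τ => C τ ∩ U) x
      exact this
    rw [h19, Filter.tendsto_iSup]
    intro τ
    rw [Filter.tendsto_iSup]
    exact h10 τ
  exact (h18.mono hcov).continuousAt hU

end Pool.Agent.H488.CC
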