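import Pool.Agent.H488.CC.Real
import Pool.Graph.R_pool_sql_team_seeded_ab47071d.TH289.N.B1

/-!
# Equivariant sections without zeros from equivariant maps to complexes
-/

set_option autoImplicit false

namespace Pool.Agent.H488.CC

open Set Topology
open Pool.Agent.W689.Ch (AffMfd locComp)

section glue

variable {X Γ W V : Type} [TopologicalSpace X] [LocallyCompactSpace X] [Group Γ] [MulAction Γ X]
  [NormedAddCommGroup W] [NormedSpace ℝ W] [MulAction Γ V]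

/-- a finite chain of simplices -/
def Chain (S : Set (Finset V)) (D : Finset (Finset V)) : Prop :=
  (∀ σ ∈ D, σ ∈ S) ∧ ∀ σ ∈ D, ∀ τ ∈ D, σ ⊆ τ ∨ τ ⊆ σ

/-- **Gluing.** -/
theorem glue {ρ : Γ →* (W →ₗ[ℝ] W)} {S : Set (Finset V)} (hS : Cplx Γ S)
    {s : X → Realiz S} (hs : Continuous s) (hsx0 : ∀ (γ : Γ) x v, (s (γ • x)).1 v = (s x).1 (γ⁻¹ • v))
    {q : Finset V → C(X, W)} (hq : ∀ σ ∈ S, ∀ (γ : Γ) x, q (move γ σ) (γ • x) = ρ γ (q σ x))
    (hne : ∀ x, ∀ D : Finset (Finset V), D.Nonempty → Chain S D → ∀ a : Finset V → ℝ, (∀ σ ∈ D, 0 < a σ) →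
      ∑ σ ∈ D, a σ • q σ x ≠ 0) :
    ∃ Z : X → W, Continuous Z ∧ (∀ (γ : Γ) x, Z (γ • x) = ρ γ (Z x)) ∧ ∀ x, Z x ≠ 0 := by
  classical
  let w' : Finset V → (V → ℝ) → ℝ := fun σ y => if σ ∈ S then wgt σ y else 0
  have hw'c : ∀ σ, Continuous (w' σ) := by
    intro σ
    by_cases h : σ ∈ S
    · have : w' σ = wgt σ := by funext y; exact if_pos h
      rw [this]
      exact continuous_wgt σ
    · have : w' σ = fun _ => 0 := by funext y; exact if_neg h
      rw [this]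
      exact continuous_const
  let G : Realiz S → C(X, W) := fun y => ∑ᶠ σ : Finset V, w' σ y.1 • q σ
  have hG : ∀ (y : Realiz S) (τ : Finset V), ((∀ v, 0 ≤ y.1 v) ∧ (∀ v, v ∉ τ → y.1 v = 0) ∧
      ∑ v ∈ τ, y.1 v = 1) → G y = ∑ σ ∈ τ.powerset, w' σ y.1 • q σ := by
    intro y τ h
    refine finsum_eq_sum_of_support_subset _ ?_
    intro σ hσ
    rw [Finset.mem_coe, Finset.mem_powerset]
    have h1 : w' σ y.1 ≠ 0 := by
      intro h0
      refine hσ ?_
      show w' σ y.1 • q σ = 0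
      rw [h0, zero_smul]
    have h2 : wgt σ y.1 ≠ 0 := by
      by_cases h3 : σ ∈ S
      · have : w' σ y.1 = wgt σ y.1 := if_pos h3
        rwa [this] at h1
      · exact absurd (if_neg h3) h1
    exact wgt_supp h.1 h.2.1 h.2.2 h2
  have hGc : Continuous G := by
    rw [continuous_realiz]
    intro τ
    have h1 : (fun y : Cell τ.1 => G (incl τ y)) = fun y : Cell τ.1 =>
        ∑ σ ∈ τ.1.powerset, w' σ y.1 • q σ := by
      funext y
      exact hG (incl τ y) τ.1 y.2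
    rw [h1]
    refine continuous_finsetSum _ fun σ _ => ?_
    exact ((hw'c σ).comp continuous_subtype_val).smul continuous_const
  have hZ : ∀ (x : X) (τ : Finset V), ((∀ v, 0 ≤ (s x).1 v) ∧ (∀ v, v ∉ τ → (s x).1 v = 0) ∧
      ∑ v ∈ τ, (s x).1 v = 1) → G (s x) x = ∑ σ ∈ τ.powerset, w' σ (s x).1 • q σ x := by
    intro x τ h
    rw [hG _ τ h, ContinuousMap.sum_apply]
    rfl
  refine ⟨fun x => G (s x) x, ?_, fun γ x => ?_, fun x => ?_⟩
  · exact (hGc.comp hs).eval continuous_id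
  · obtain ⟨τ, hτ, h⟩ := (s x).2
    have hsx : ∀ v, (s (γ • x)).1 v = (s x).1 (γ⁻¹ • v) := hsx0 γ x
    have hsx' : (s (γ • x)).1 = fun v => (s x).1 (γ⁻¹ • v) := funext hsx
    have h1 := cell_move γ h
    show G (s (γ • x)) (γ • x) = ρ γ (G (s x) x)
    rw [hZ (γ • x) (move γ τ) (by rw [hsx']; exact h1), hZ x τ h, map_sum]
    symm
    refine Finset.sum_nbij (move γ) ?_ ?_ ?_ ?_
    · intro σ hσ
      rw [Finset.mem_powerset] at *
      exact move_subset hσ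
    · intro σ _ υ _ he
      exact move_inj γ he
    · intro σ hσ
      rw [Finset.mem_coe, Finset.mem_powerset] at hσ
      refine ⟨move γ⁻¹ σ, ?_, move_move_inv γ σ⟩
      rw [Finset.mem_coe, Finset.mem_powerset, ← move_inv_move γ τ]
      exact move_subset hσ
    · intro σ _
      by_cases h3 : σ ∈ S
      · have h4 := hS.inv γ σ h3
        have e1 : w' σ (s x).1 = wgt σ (s x).1 := if_pos h3
        have e2 : w' (move γ σ) (s (γ • x)).1 = wgt (move γ σ) (s (γ • x)).1 := if_pos h4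
        have e7 : wgt (move γ σ) (s (γ • x)).1 = wgt σ (s x).1 := by
          rw [hsx']
          exact wgt_move γ σ _
        rw [e1, e2, e7, hq σ h3, map_smul]
      · have h4 : move γ σ ∉ S := by
          intro h4
          have h5 := hS.inv γ⁻¹ _ h4
          rw [move_inv_move] at h5
          exact h3 h5
        have e1 : w' σ (s x).1 = 0 := if_neg h3
        have e2 : w' (move γ σ) (s (γ • x)).1 = 0 := if_neg h4
        rw [e1, e2, zero_smul, zero_smul, map_zero]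
  · obtain ⟨τ, hτ, h⟩ := (s x).2
    show G (s x) x ≠ 0
    rw [hZ x τ h]
    let D' : Finset (Finset V) := τ.powerset.filter fun σ => w' σ (s x).1 ≠ 0
    have hD' : ∀ σ ∈ D', σ ∈ S ∧ wgt σ (s x).1 ≠ 0 := by
      intro σ hσ
      have h1 := (Finset.mem_filter.1 hσ).2
      by_cases h3 : σ ∈ S
      · have : w' σ (s x).1 = wgt σ (s x).1 := if_pos h3
        rw [this] at h1
        exact ⟨h3, h1⟩
      · exact absurd (if_neg h3) h1
    have h5 : ∑ σ ∈ τ.powerset, w' σ (s x).1 • q σ x = ∑ σ ∈ D', wgt σ (s x).1 • q σ x := by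
      have h6 : ∑ σ ∈ τ.powerset, w' σ (s x).1 • q σ x = ∑ σ ∈ D', w' σ (s x).1 • q σ x := by
        symm
        refine Finset.sum_subset (Finset.filter_subset _ _) fun σ hσ hσ' => ?_
        have h7 : w' σ (s x).1 = 0 := by
          by_contra hcon'
          exact hσ' (Finset.mem_filter.2 ⟨hσ, hcon'⟩)
        rw [h7, zero_smul]
      rw [h6]
      refine Finset.sum_congr rfl fun σ hσ => ?_
      have e1 : w' σ (s x).1 = wgt σ (s x).1 := if_pos (hD' σ hσ).1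
      rw [e1]
    rw [h5]
    refine hne x D' ?_ ⟨fun σ hσ => (hD' σ hσ).1, ?_⟩ _ ?_
    · obtain ⟨σ, h6, h7, h8⟩ := wgt_exists h.1 h.2.1 h.2.2
      refine ⟨σ, Finset.mem_filter.2 ⟨Finset.mem_powerset.2 h6, ?_⟩⟩
      have : w' σ (s x).1 = wgt σ (s x).1 := if_pos (hS.down τ hτ σ h6 h7)
      rwa [this]
    · intro σ hσ υ hυ
      exact wgt_chain h.1 h.2.1 h.2.2 (hD' σ hσ).2 (hD' υ hυ).2
    · intro σ hσ
      exact lt_of_le_of_ne (wgt_nonneg _ _) (Ne.symm (hD' σ hσ).2)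

end glue

section principle

variable {X Γ E : Type} [TopologicalSpace X] [T2Space X] [Group Γ] [MulAction Γ X]
  [NormedAddCommGroup E] [NormedSpace ℝ E] [FiniteDimensional ℝ E]
  {dev : X → E} {hol : Γ →* (E ≃ᵃ[ℝ] E)}
  {W : Type} [NormedAddCommGroup W] [NormedSpace ℝ W] [FiniteDimensional ℝ W] {V : Type} [MulAction Γ V]

/-- the action on sections -/
noncomputable def push (D : AffMfd X Γ E dev hol) (ρ : Γ →* (W →ₗ[ℝ] W)) (γ : Γ) : C(X, W) →ₗ[ℝ] C(X, W) where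
  toFun Z := ⟨fun x => ρ γ (Z (γ⁻¹ • x)),
    (LinearMap.continuous_of_finiteDimensional (ρ γ)).comp (Z.continuous.comp (D.cont γ⁻¹))⟩
  map_add' Z Z' := by
    ext x
    exact map_add (ρ γ) _ _
  map_smul' c Z := by
    ext x
    exact map_smul (ρ γ) _ _

theorem push_apply (D : AffMfd X Γ E dev hol) (ρ : Γ →* (W →ₗ[ℝ] W)) (γ : Γ) (Z : C(X, W)) (x : X) :
    push D ρ γ Z x = ρ γ (Z (γ⁻¹ • x)) := rfl

theorem continuous_push (D : AffMfd X Γ E dev hol) (ρ : Γ →* (W →ₗ[ℝ] W)) (γ : Γ) :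
    Continuous (push D ρ γ) := by
  have h1 := ContinuousMap.continuous_postcomp (X := X)
    (⟨ρ γ, LinearMap.continuous_of_finiteDimensional (ρ γ)⟩ : C(W, W))
  have h2 := ContinuousMap.continuous_precomp (Z := W) (⟨fun x : X => γ⁻¹ • x, D.cont γ⁻¹⟩ : C(X, X))
  exact h1.comp h2

/-- **The principle.** -/
theorem principle (D : AffMfd X Γ E dev hol) (hfree : ∀ γ : Γ, γ ≠ 1 → ∀ x : X, γ • x ≠ x)
    (ρ : Γ →* (W →ₗ[ℝ] W)) {S : Set (Finset V)} (hS : Cplx Γ S)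
    {s : X → Realiz S} (hs : Continuous s) (hsx0 : ∀ (γ : Γ) x v, (s (γ • x)).1 v = (s x).1 (γ⁻¹ • v))
    (Q : Finset V → Set C(X, W)) (hQne : ∀ σ ∈ S, (Q σ).Nonempty)
    (hQ : ∀ (γ : Γ), ∀ σ ∈ S, ∀ Z ∈ Q σ, ∃ Z' ∈ Q (move γ σ), ∀ x, Z' (γ • x) = ρ γ (Z x))
    (h0 : ∀ C : Finset (Finset V), Chain S C → ∀ x,
      (0 : W) ∉ convexHull ℝ {u | ∃ σ ∈ C, ∃ Z ∈ Q σ, u = Z x}) :
    ∃ Z : X → W, Continuous Z ∧ (∀ (γ : Γ) x, Z (γ • x) = ρ γ (Z x)) ∧ ∀ x, Z x ≠ 0 := by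
  classical
  have := locComp D
  let P : Set (Finset V → C(X, W)) := {q | ∀ σ ∈ S, q σ ∈ convexHull ℝ (Q σ)}
  have hPc : Convex ℝ P := by
    intro p hp q hq a b ha hb hab σ hσ
    exact (convex_convexHull ℝ (Q σ)) (hp σ hσ) (hq σ hσ) ha hb hab
  have hPne : P.Nonempty := by
    choose! z hz using hQne
    exact ⟨z, fun σ hσ => subset_convexHull ℝ _ (hz σ hσ)⟩
  have hpush : ∀ (γ : Γ), ∀ σ ∈ S, ∀ Z ∈ convexHull ℝ (Q σ), push D ρ γ Z ∈ convexHull ℝ (Q (move γ σ)) := by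
    intro γ σ hσ Z hZ
    have h1 : push D ρ γ Z ∈ (push D ρ γ) '' convexHull ℝ (Q σ) := ⟨Z, hZ, rfl⟩
    rw [LinearMap.image_convexHull] at h1
    refine convexHull_mono ?_ h1
    rintro _ ⟨Y, hY, rfl⟩
    obtain ⟨Z', hZ', he⟩ := hQ γ σ hσ Y hY
    have : push D ρ γ Y = Z' := by
      ext x
      rw [push_apply, ← he, smul_inv_smul]
    rwa [this]
  let _ : MulAction Γ P :=
    { smul := fun γ p => ⟨fun σ => push D ρ γ (p.1 (move γ⁻¹ σ)), fun σ hσ => by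
        have h1 := hpush γ (move γ⁻¹ σ) (hS.inv γ⁻¹ σ hσ) _ (p.2 _ (hS.inv γ⁻¹ σ hσ))
        rwa [move_move_inv] at h1⟩
      one_smul := by
        intro p
        apply Subtype.ext
        funext σ
        ext x
        show ρ 1 (p.1 (move (1 : Γ)⁻¹ σ) ((1 : Γ)⁻¹ • x)) = p.1 σ x
        rw [inv_one, move_one, one_smul, map_one]; rfl
      mul_smul := by
        intro γ δ p
        apply Subtype.ext
        funext σ
        ext x
        show ρ (γ * δ) (p.1 (move (γ * δ)⁻¹ σ) ((γ * δ)⁻¹ • x)) =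
          ρ γ (ρ δ (p.1 (move δ⁻¹ (move γ⁻¹ σ)) (δ⁻¹ • γ⁻¹ • x)))
        rw [mul_inv_rev, move_mul, mul_smul, map_mul]; rfl }
  have hcont : ∀ γ : Γ, Continuous fun p : P => γ • p := by
    intro γ
    refine Continuous.subtype_mk (continuous_pi fun σ => ?_) _
    exact (continuous_push D ρ γ).comp ((continuous_apply (move γ⁻¹ σ)).comp continuous_subtype_val)
  have : ContractibleSpace P := hPc.contractibleSpace hPne
  obtain ⟨t, ht, hte⟩ := Pool.Agent.TH289.N.exists_eqv D hfree (Y := P) hcont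
  let q : Finset V → C(X, W) := fun σ => ⟨fun x => (t x).1 σ x,
    (((continuous_apply σ).comp continuous_subtype_val).comp ht).eval continuous_id⟩
  refine glue hS hs hsx0 (q := q) (fun σ hσ γ x => ?_) (fun x C hCne hC a ha hsum => ?_)
  · show (t (γ • x)).1 (move γ σ) (γ • x) = ρ γ ((t x).1 σ x)
    rw [hte]
    show ρ γ ((t x).1 (move γ⁻¹ (move γ σ)) (γ⁻¹ • γ • x)) = _
    rw [move_inv_move, inv_smul_smul]
  · refine h0 C hC x ?_
    have h1 : ∀ σ ∈ C, q σ x ∈ convexHull ℝ {u | ∃ σ ∈ C, ∃ Z ∈ Q σ, u = Z x} := by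
      intro σ hσ
      let ev : C(X, W) →ₗ[ℝ] W := { toFun := fun Z => Z x, map_add' := fun _ _ => rfl, map_smul' := fun _ _ => rfl }
      have h2 : q σ x ∈ ev '' convexHull ℝ (Q σ) := ⟨(t x).1 σ, (t x).2 σ (hC.1 σ hσ), rfl⟩
      rw [LinearMap.image_convexHull] at h2
      refine convexHull_mono ?_ h2
      rintro _ ⟨Y, hY, rfl⟩
      exact ⟨σ, hσ, Y, hY, rfl⟩
    have h3 : 0 < ∑ σ ∈ C, a σ := Finset.sum_pos ha hCne
    have h4 : ∑ σ ∈ C, (a σ / ∑ σ ∈ C, a σ) • q σ x ∈ convexHull ℝ {u | ∃ σ ∈ C, ∃ Z ∈ Q σ, u = Z x} := by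
      refine (convex_convexHull ℝ _).sum_mem (fun σ hσ => (div_pos (ha σ hσ) h3).le) ?_ h1
      rw [← Finset.sum_div, div_self h3.ne']
    have h5 : ∑ σ ∈ C, (a σ / ∑ σ ∈ C, a σ) • q σ x = 0 := by
      have : ∑ σ ∈ C, (a σ / ∑ σ ∈ C, a σ) • q σ x = (∑ σ ∈ C, a σ)⁻¹ • ∑ σ ∈ C, a σ • q σ x := by
        rw [Finset.smul_sum]
        refine Finset.sum_congr rfl fun σ _ => ?_
        rw [smul_smul, div_eq_inv_mul]
      rw [this, hsum, smul_zero]
    rwa [h5] at h4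

end principle

end Pool.Agent.H488.CC
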