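import Pool.Agent.H488.CC.Select

/-!
# The geometric realization of a simplicial complex and the weights of the flags
-/

set_option autoImplicit false

namespace Pool.Agent.H488.CC

open Set Topology

section

variable {V : Type}

/-- the closed simplex with the vertices `σ` -/
def Cell (σ : Finset V) : Type :=
  {y : V → ℝ // (∀ v, 0 ≤ y v) ∧ (∀ v, v ∉ σ → y v = 0) ∧ ∑ v ∈ σ, y v = 1}

instance (σ : Finset V) : TopologicalSpace (Cell σ) :=
  inferInstanceAs (TopologicalSpace {y : V → ℝ // (∀ v, 0 ≤ y v) ∧ (∀ v, v ∉ σ → y v = 0) ∧ ∑ v ∈ σ, y v = 1})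

/-- the geometric realization of a simplicial complex -/
def Realiz (S : Set (Finset V)) : Type :=
  {y : V → ℝ // ∃ σ ∈ S, (∀ v, 0 ≤ y v) ∧ (∀ v, v ∉ σ → y v = 0) ∧ ∑ v ∈ σ, y v = 1}

/-- the inclusion of a closed simplex -/
def incl {S : Set (Finset V)} (σ : S) (y : Cell σ.1) : Realiz S := ⟨y.1, σ.1, σ.2, y.2⟩

/-- the weak topology: a set is open if its intersection with each closed simplex is open -/
instance (S : Set (Finset V)) : TopologicalSpace (Realiz S) :=
  ⨆ σ : S, TopologicalSpace.coinduced (incl σ) inferInstance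

theorem continuous_realiz {S : Set (Finset V)} {Z : Type} [TopologicalSpace Z] {f : Realiz S → Z} :
    Continuous f ↔ ∀ σ : S, Continuous fun y : Cell σ.1 => f (incl σ y) := by
  constructor
  · intro h σ
    have h1 : Continuous (incl σ : Cell σ.1 → Realiz S) := by
      rw [continuous_iff_coinduced_le]
      exact le_iSup (fun σ : S => TopologicalSpace.coinduced (incl σ) inferInstance) σ
    exact h.comp h1
  · intro h
    rw [continuous_iSup_dom]
    intro σ
    rw [continuous_coinduced_dom]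
    exact h σ

theorem continuous_incl {S : Set (Finset V)} (σ : S) : Continuous (incl σ : Cell σ.1 → Realiz S) :=
  continuous_realiz.1 continuous_id σ

/-- the weight of the face `σ` at a point with barycentric coordinates `y` -/
noncomputable def wgt (σ : Finset V) (y : V → ℝ) : ℝ := ∏ v ∈ σ, max 0 (y v + ∑ u ∈ σ, y u - 1)

theorem wgt_nonneg (σ : Finset V) (y : V → ℝ) : 0 ≤ wgt σ y :=
  Finset.prod_nonneg fun _ _ => le_max_left _ _

theorem continuous_wgt (σ : Finset V) : Continuous (wgt σ : (V → ℝ) → ℝ) := by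
  unfold wgt
  refine continuous_finsetProd _ fun v _ => continuous_const.max ?_
  exact ((continuous_apply v).add (continuous_finsetSum _ fun u _ => continuous_apply u)).sub continuous_const

theorem wgt_pos {σ : Finset V} {y : V → ℝ} (h : wgt σ y ≠ 0) {v : V} (hv : v ∈ σ) :
    1 < y v + ∑ u ∈ σ, y u := by
  by_contra hcon
  refine h (Finset.prod_eq_zero hv ?_)
  rw [max_eq_left]
  linarith

theorem sum_le_one {τ : Finset V} {y : V → ℝ} (h0 : ∀ v, 0 ≤ y v) (h1 : ∀ v, v ∉ τ → y v = 0)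
    (h2 : ∑ v ∈ τ, y v = 1) (σ : Finset V) : ∑ v ∈ σ, y v ≤ 1 := by
  classical
  rw [← h2]
  have h3 : ∑ v ∈ σ, y v = ∑ v ∈ σ ∩ τ, y v := by
    symm
    refine Finset.sum_subset Finset.inter_subset_left fun v hv hv' => h1 v fun hτ => hv' ?_
    exact Finset.mem_inter.2 ⟨hv, hτ⟩
  rw [h3]
  exact Finset.sum_le_sum_of_subset_of_nonneg Finset.inter_subset_right fun v _ _ => h0 v

/-- faces of positive weight consist of vertices with positive coordinates -/
theorem wgt_supp {τ : Finset V} {y : V → ℝ} (h0 : ∀ v, 0 ≤ y v) (h1 : ∀ v, v ∉ τ → y v = 0)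
    (h2 : ∑ v ∈ τ, y v = 1) {σ : Finset V} (h : wgt σ y ≠ 0) : σ ⊆ τ := by
  intro v hv
  by_contra hcon
  have h3 := wgt_pos h hv
  rw [h1 v hcon] at h3
  have h4 := sum_le_one h0 h1 h2 σ
  linarith

/-- the faces of positive weight form a chain -/
theorem wgt_chain {τ : Finset V} {y : V → ℝ} (h0 : ∀ v, 0 ≤ y v) (h1 : ∀ v, v ∉ τ → y v = 0)
    (h2 : ∑ v ∈ τ, y v = 1) {σ υ : Finset V} (h : wgt σ y ≠ 0) (h' : wgt υ y ≠ 0) : σ ⊆ υ ∨ υ ⊆ σ := by
  classical
  by_contra hcon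
  push Not at hcon
  obtain ⟨v, hv, hv'⟩ := Finset.not_subset.1 hcon.1
  obtain ⟨u, hu, hu'⟩ := Finset.not_subset.1 hcon.2
  have h3 := wgt_pos h hv
  have h4 := wgt_pos h' hu
  have h5 : y u + ∑ w ∈ σ, y w ≤ 1 := by
    rw [← Finset.sum_insert hu']
    exact sum_le_one h0 h1 h2 _
  have h6 : y v + ∑ w ∈ υ, y w ≤ 1 := by
    rw [← Finset.sum_insert hv']
    exact sum_le_one h0 h1 h2 _
  linarith

/-- some face has a positive weight -/
theorem wgt_exists {τ : Finset V} {y : V → ℝ} (h0 : ∀ v, 0 ≤ y v) (_h1 : ∀ v, v ∉ τ → y v = 0)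
    (h2 : ∑ v ∈ τ, y v = 1) : ∃ σ ⊆ τ, σ.Nonempty ∧ wgt σ y ≠ 0 := by
  classical
  have h3 : ∑ v ∈ τ.filter (fun v => y v ≠ 0), y v = 1 := by
    rw [← h2]
    exact Finset.sum_filter_ne_zero τ
  refine ⟨τ.filter fun v => y v ≠ 0, Finset.filter_subset _ _, ?_, ?_⟩
  · rw [Finset.nonempty_iff_ne_empty]
    intro h
    rw [h, Finset.sum_empty] at h3
    exact zero_ne_one h3
  · unfold wgt
    rw [Finset.prod_ne_zero_iff]
    intro v hv
    rw [h3]
    have h4 : 0 < y v := lt_of_le_of_ne (h0 v) (Ne.symm (Finset.mem_filter.1 hv).2)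
    rw [max_eq_right (by linarith)]
    linarith

end

section

variable {Γ V : Type} [Group Γ] [MulAction Γ V]

theorem wgt_move (γ : Γ) (σ : Finset V) (y : V → ℝ) :
    wgt (move γ σ) (fun v => y (γ⁻¹ • v)) = wgt σ y := by
  unfold wgt move
  rw [Finset.prod_map, Finset.sum_map]
  refine Finset.prod_congr rfl fun v _ => ?_
  show max 0 (y (γ⁻¹ • γ • v) + ∑ u ∈ σ, y (γ⁻¹ • γ • u) - 1) = _
  simp only [inv_smul_smul]

theorem cell_move (γ : Γ) {σ : Finset V} {y : V → ℝ}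
    (h : (∀ v, 0 ≤ y v) ∧ (∀ v, v ∉ σ → y v = 0) ∧ ∑ v ∈ σ, y v = 1) :
    (∀ v, 0 ≤ y (γ⁻¹ • v)) ∧ (∀ v, v ∉ move γ σ → y (γ⁻¹ • v) = 0) ∧ ∑ v ∈ move γ σ, y (γ⁻¹ • v) = 1 := by
  refine ⟨fun v => h.1 _, fun v hv => h.2.1 _ fun hv' => hv (mem_move.2 hv'), ?_⟩
  unfold move
  rw [Finset.sum_map]
  rw [← h.2.2]
  refine Finset.sum_congr rfl fun v _ => ?_
  show y (γ⁻¹ • γ • v) = _
  rw [inv_smul_smul]

/-- the action on the realization -/
@[reducible] def act {S : Set (Finset V)} (hS : Cplx Γ S) : MulAction Γ (Realiz S) where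
  smul γ y := ⟨fun v => y.1 (γ⁻¹ • v), by
    obtain ⟨σ, hσ, h⟩ := y.2
    exact ⟨move γ σ, hS.inv γ σ hσ, cell_move γ h⟩⟩
  one_smul y := by
    apply Subtype.ext
    funext v
    show y.1 ((1 : Γ)⁻¹ • v) = _
    rw [inv_one, one_smul]
  mul_smul γ δ y := by
    apply Subtype.ext
    funext v
    show y.1 ((γ * δ)⁻¹ • v) = y.1 (δ⁻¹ • γ⁻¹ • v)
    rw [mul_inv_rev, mul_smul]

theorem continuous_act {S : Set (Finset V)} (hS : Cplx Γ S) (γ : Γ) :
    letI := act hS
    Continuous fun y : Realiz S => γ • y := by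
  let _ := act hS
  rw [continuous_realiz]
  intro σ
  have h1 : Continuous fun y : Cell σ.1 =>
      (⟨fun v => y.1 (γ⁻¹ • v), cell_move γ y.2⟩ : Cell (move γ σ.1)) := by
    refine Continuous.subtype_mk ?_ _
    exact continuous_pi fun v => (continuous_apply (γ⁻¹ • v)).comp continuous_subtype_val
  exact (continuous_incl (⟨move γ σ.1, hS.inv γ σ.1 σ.2⟩ : S)).comp h1

end

end Pool.Agent.H488.CC
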