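import Mathlib

/-!
# Choice of vectors for the simplices of a complex with a group action
-/

set_option autoImplicit false

namespace Pool.Agent.H488.CC

open Set

variable {Γ V W : Type} [Group Γ] [MulAction Γ V] [AddCommGroup W] [Module ℝ W]

/-- the image of a finite set under an element of the group -/
def move (γ : Γ) (σ : Finset V) : Finset V := σ.map ⟨fun v => γ • v, MulAction.injective γ⟩

theorem mem_move {γ : Γ} {σ : Finset V} {v : V} : v ∈ move γ σ ↔ γ⁻¹ • v ∈ σ := by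
  unfold move
  rw [Finset.mem_map]
  constructor
  · rintro ⟨w, hw, rfl⟩
    show γ⁻¹ • γ • w ∈ σ
    rwa [inv_smul_smul]
  · intro h
    exact ⟨γ⁻¹ • v, h, smul_inv_smul γ v⟩

theorem move_mul (γ δ : Γ) (σ : Finset V) : move (γ * δ) σ = move γ (move δ σ) := by
  ext v
  rw [mem_move, mem_move, mem_move, mul_inv_rev, mul_smul]

theorem move_one (σ : Finset V) : move (1 : Γ) σ = σ := by
  ext v
  rw [mem_move, inv_one, one_smul]

theorem move_inv_move (γ : Γ) (σ : Finset V) : move γ⁻¹ (move γ σ) = σ := by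
  rw [← move_mul, inv_mul_cancel, move_one]

theorem move_move_inv (γ : Γ) (σ : Finset V) : move γ (move γ⁻¹ σ) = σ := by
  rw [← move_mul, mul_inv_cancel, move_one]

theorem move_inv_eq {γ : Γ} {σ τ : Finset V} (h : move γ τ = σ) : move γ⁻¹ σ = τ := by
  rw [← h, move_inv_move]

theorem card_move (γ : Γ) (σ : Finset V) : (move γ σ).card = σ.card := Finset.card_map _

theorem move_nonempty {γ : Γ} {σ : Finset V} : (move γ σ).Nonempty ↔ σ.Nonempty := Finset.map_nonempty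

theorem move_subset {γ : Γ} {σ τ : Finset V} (h : σ ⊆ τ) : move γ σ ⊆ move γ τ :=
  Finset.map_subset_map.2 h

theorem move_subset_iff {γ : Γ} {σ τ : Finset V} : move γ σ ⊆ move γ τ ↔ σ ⊆ τ :=
  Finset.map_subset_map

theorem move_inj (γ : Γ) : Function.Injective (move γ : Finset V → Finset V) := by
  intro σ τ h
  rw [← move_inv_move γ σ, h, move_inv_move]

/-- the weight space of the stabilizer of `σ` -/
def wt (ρ : Γ →* (W →ₗ[ℝ] W)) (c : Γ → ℝ) (σ : Finset V) : Submodule ℝ W where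
  carrier := {u | ∀ γ, move γ σ = σ → ρ γ u = c γ • u}
  add_mem' := by
    intro a b ha hb γ hγ
    rw [map_add, ha γ hγ, hb γ hγ, smul_add]
  zero_mem' := by
    intro γ _
    rw [map_zero, smul_zero]
  smul_mem' := by
    intro a u hu γ hγ
    rw [map_smul, hu γ hγ, smul_comm]

/-- a simplicial complex with vertices in `V`, invariant under the group -/
structure Cplx (Γ : Type) {V : Type} [Group Γ] [MulAction Γ V] (S : Set (Finset V)) : Prop where
  /-- simplices are not empty -/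
  ne : ∀ σ ∈ S, σ.Nonempty
  /-- faces of simplices are simplices -/
  down : ∀ σ ∈ S, ∀ τ ⊆ σ, τ.Nonempty → τ ∈ S
  /-- invariance -/
  inv : ∀ (γ : Γ), ∀ σ ∈ S, move γ σ ∈ S

/-- `C` is a chain of proper faces of `σ` -/
def Flag (σ : Finset V) (C : Finset (Finset V)) : Prop :=
  (∀ τ ∈ C, τ.Nonempty ∧ τ ⊂ σ) ∧ ∀ τ ∈ C, ∀ τ' ∈ C, τ ⊆ τ' ∨ τ' ⊆ τ

omit [MulAction Γ V] [Group Γ] in
theorem flag_card {σ : Finset V} {C : Finset (Finset V)} (h : Flag σ C) : C.card + 1 ≤ σ.card ∨ C = ∅ := by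
  by_cases hC : C = ∅
  · exact Or.inr hC
  · left
    have h1 : C.card ≤ (Finset.Ico 1 σ.card).card := by
      refine Finset.card_le_card_of_injOn Finset.card ?_ ?_
      · intro τ hτ
        have h2 := h.1 τ hτ
        rw [Finset.mem_coe, Finset.mem_Ico]
        exact ⟨Finset.card_pos.2 h2.1, Finset.card_lt_card h2.2⟩
      · intro τ hτ τ' hτ' he
        rcases h.2 τ hτ τ' hτ' with h3 | h3
        · exact Finset.eq_of_subset_of_card_le h3 (le_of_eq he.symm)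
        · exact (Finset.eq_of_subset_of_card_le h3 (le_of_eq he)).symm
    rw [Nat.card_Ico] at h1
    obtain ⟨τ, hτ⟩ := Finset.nonempty_iff_ne_empty.2 hC
    have h4 := Finset.card_lt_card (h.1 τ hτ).2
    omega

/-- the conditions on the vectors up to dimension `n` -/
structure Good (ρ : Γ →* (W →ₗ[ℝ] W)) (S : Set (Finset V)) (n : ℕ) (F : Finset V → W) : Prop where
  eqv : ∀ σ ∈ S, σ.card ≤ n → ∀ γ : Γ, ∃ c : ℝ, 0 < c ∧ F (move γ σ) = c • ρ γ (F σ)
  ind : ∀ σ ∈ S, σ.card ≤ n → ∀ C, Flag σ C → F σ ∉ Submodule.span ℝ (F '' C)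

variable [FiniteDimensional ℝ W]

/-- choice of one vector -/
theorem exists_vec {ρ : Γ →* (W →ₗ[ℝ] W)} (F : Finset V → W) {σ : Finset V} (hne : σ.Nonempty) {c : Γ → ℝ}
    (h : σ.card ≤ Module.finrank ℝ (wt ρ c σ)) :
    ∃ u ∈ wt ρ c σ, ∀ C, Flag σ C → u ∉ Submodule.span ℝ (F '' C) := by
  classical
  let P : Submodule ℝ W := wt ρ c σ
  let T : Finset (Submodule ℝ P) := ((σ.powerset.powerset.filter fun C => Flag σ C).image
    fun C : Finset (Finset V) => (Submodule.span ℝ (F '' (C : Set (Finset V)))).comap P.subtype)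
  have hT : (⊤ : Submodule ℝ P) ∉ T := by
    intro hT
    obtain ⟨C, hC, he⟩ := Finset.mem_image.1 hT
    have hfl : Flag σ C := (Finset.mem_filter.1 hC).2
    have h1 : P ≤ Submodule.span ℝ (F '' C) := by
      intro u hu
      have : (⟨u, hu⟩ : P) ∈ (Submodule.span ℝ (F '' C)).comap P.subtype := by rw [he]; trivial
      exact this
    have h2 : Module.finrank ℝ P ≤ Module.finrank ℝ (Submodule.span ℝ (F '' C)) := Submodule.finrank_mono h1
    have h3 : Module.finrank ℝ (Submodule.span ℝ (F '' C)) ≤ C.card := by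
      have h4 : F '' C = ((C.image F : Finset W) : Set W) := by rw [Finset.coe_image]
      rw [h4]
      exact (finrank_span_finset_le_card _).trans Finset.card_image_le
    have h5 := Finset.card_pos.2 hne
    have h' : σ.card ≤ Module.finrank ℝ P := h
    rcases flag_card hfl with h6 | h6
    · omega
    · have h8 : C.card = 0 := by rw [h6, Finset.card_empty]
      omega
  have h7 := Subspace.biUnion_ne_univ_of_top_notMem hT
  obtain ⟨u, hu⟩ := (Set.ne_univ_iff_exists_notMem _).1 h7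
  refine ⟨u.1, u.2, fun C hC hmem => hu ?_⟩
  rw [mem_iUnion₂]
  refine ⟨(Submodule.span ℝ (F '' C)).comap P.subtype, ?_, hmem⟩
  refine Finset.mem_image.2 ⟨C, Finset.mem_filter.2 ⟨?_, hC⟩, rfl⟩
  rw [Finset.mem_powerset]
  intro τ hτ
  exact Finset.mem_powerset.2 (hC.1 τ hτ).2.1

/-- the orbit relation -/
def orb (Γ V : Type) [Group Γ] [MulAction Γ V] : Setoid (Finset V) where
  r σ τ := ∃ γ : Γ, move γ σ = τ
  iseqv := by
    refine ⟨fun σ => ⟨1, move_one σ⟩, ?_, ?_⟩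
    · rintro σ τ ⟨γ, rfl⟩
      exact ⟨γ⁻¹, move_inv_move γ σ⟩
    · rintro σ τ υ ⟨γ, rfl⟩ ⟨δ, rfl⟩
      exact ⟨δ * γ, move_mul δ γ σ⟩

/-- the representative of the orbit -/
noncomputable def rep (Γ : Type) {V : Type} [Group Γ] [MulAction Γ V] (σ : Finset V) : Finset V :=
  (Quotient.mk (orb Γ V) σ).out

theorem rep_spec (Γ : Type) {V : Type} [Group Γ] [MulAction Γ V] (σ : Finset V) :
    ∃ γ : Γ, move γ (rep Γ σ) = σ := Quotient.mk_out (s := orb Γ V) σ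

theorem rep_move {Γ V : Type} [Group Γ] [MulAction Γ V] (γ : Γ) (σ : Finset V) :
    rep Γ (move γ σ) = rep Γ σ := by
  unfold rep
  have : (Quotient.mk (orb Γ V) (move γ σ)) = Quotient.mk (orb Γ V) σ :=
    Quotient.sound (s := orb Γ V) ⟨γ⁻¹, move_inv_move γ σ⟩
  rw [this]

theorem step {ρ : Γ →* (W →ₗ[ℝ] W)} {S : Set (Finset V)} (hS : Cplx Γ S)
    (hW : ∀ σ ∈ S, ∃ c : Γ → ℝ, (∀ γ, 0 < c γ) ∧ σ.card ≤ Module.finrank ℝ (wt ρ c σ)) {n : ℕ}
    {F : Finset V → W} (hF : Good ρ S n F) : ∃ F' : Finset V → W, Good ρ S (n + 1) F' := by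
  classical
  have hex : ∀ σ ∈ S, ∃ u : W, (∀ γ : Γ, move γ σ = σ → ∃ c : ℝ, 0 < c ∧ ρ γ u = c • u) ∧
      ∀ C, Flag σ C → u ∉ Submodule.span ℝ (F '' C) := by
    intro σ hσ
    obtain ⟨c, hc, h⟩ := hW σ hσ
    obtain ⟨u, hu, h1⟩ := exists_vec F (hS.ne σ hσ) h
    exact ⟨u, fun γ hγ => ⟨c γ, hc γ, hu γ hγ⟩, h1⟩
  choose! u hu1 hu2 using hex
  choose g hg using fun σ : Finset V => rep_spec Γ σ
  have hrep : ∀ σ ∈ S, rep Γ σ ∈ S := by
    intro σ hσ
    have h1 := hS.inv (g σ)⁻¹ σ hσ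
    have h2 : move (g σ)⁻¹ σ = rep Γ σ := move_inv_eq (hg σ)
    rwa [h2] at h1
  let F' : Finset V → W := fun σ => if σ.card = n + 1 then ρ (g σ) (u (rep Γ σ)) else F σ
  have h0 : ∀ σ : Finset V, σ.card ≤ n → F' σ = F σ := fun σ h => if_neg (by omega)
  have h1 : ∀ σ : Finset V, σ.card = n + 1 → F' σ = ρ (g σ) (u (rep Γ σ)) := fun σ h => if_pos h
  refine ⟨F', ?_, ?_⟩
  · intro σ hσ hc γ
    rcases Nat.lt_or_ge n σ.card with h | h
    · have hc1 : σ.card = n + 1 := by omega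
      rw [h1 σ hc1, h1 _ (by rw [card_move]; exact hc1), rep_move]
      have h3 : move ((γ * g σ)⁻¹ * g (move γ σ)) (rep Γ σ) = rep Γ σ := by
        have h4 := hg (move γ σ)
        rw [rep_move] at h4
        rw [move_mul, h4]
        refine move_inv_eq ?_
        rw [move_mul, hg]
      obtain ⟨c, hc0, h4⟩ := hu1 (rep Γ σ) (hrep σ hσ) _ h3
      refine ⟨c, hc0, ?_⟩
      have h5 : g (move γ σ) = γ * g σ * ((γ * g σ)⁻¹ * g (move γ σ)) := by group
      rw [h5, map_mul, map_mul]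
      show ρ γ (ρ (g σ) (ρ _ (u (rep Γ σ)))) = _
      rw [h4, map_smul, map_smul]
    · obtain ⟨c, hc0, h4⟩ := hF.eqv σ hσ h γ
      refine ⟨c, hc0, ?_⟩
      rw [h0 σ h, h0 _ (by rw [card_move]; exact h), h4]
  · intro σ hσ hc C hC hmem
    have hCn : ∀ τ ∈ C, τ.card ≤ n := by
      intro τ hτ
      have := Finset.card_lt_card (hC.1 τ hτ).2
      omega
    have hCS : ∀ τ ∈ C, τ ∈ S := fun τ hτ => hS.down σ hσ τ (hC.1 τ hτ).2.1 (hC.1 τ hτ).1
    have hFC : F' '' C = F '' C := by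
      ext w
      constructor
      · rintro ⟨τ, hτ, rfl⟩
        exact ⟨τ, hτ, (h0 τ (hCn τ hτ)).symm⟩
      · rintro ⟨τ, hτ, rfl⟩
        exact ⟨τ, hτ, h0 τ (hCn τ hτ)⟩
    rw [hFC] at hmem
    rcases Nat.lt_or_ge n σ.card with h | h
    · have hc1 : σ.card = n + 1 := by omega
      rw [h1 σ hc1] at hmem
      have hr : move (g σ)⁻¹ σ = rep Γ σ := move_inv_eq (hg σ)
      have hC' : Flag (rep Γ σ) (C.map ⟨move (g σ)⁻¹, move_inj _⟩) := by
        constructor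
        · intro τ hτ
          obtain ⟨τ', h3, rfl⟩ := Finset.mem_map.1 hτ
          show (move (g σ)⁻¹ τ').Nonempty ∧ move (g σ)⁻¹ τ' ⊂ rep Γ σ
          refine ⟨move_nonempty.2 (hC.1 τ' h3).1, ?_⟩
          have h4 := (hC.1 τ' h3).2
          rw [← hr]
          exact ⟨move_subset h4.1, fun h5 => h4.2 (move_subset_iff.1 h5)⟩
        · intro τ hτ υ hυ
          obtain ⟨τ', h3, rfl⟩ := Finset.mem_map.1 hτ
          obtain ⟨υ', h4, rfl⟩ := Finset.mem_map.1 hυ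
          exact (hC.2 τ' h3 υ' h4).imp move_subset move_subset
      refine hu2 (rep Γ σ) (hrep σ hσ) _ hC' ?_
      have h5 : u (rep Γ σ) = ρ (g σ)⁻¹ (ρ (g σ) (u (rep Γ σ))) := by
        have : ρ (g σ)⁻¹ (ρ (g σ) (u (rep Γ σ))) = (ρ ((g σ)⁻¹ * g σ)) (u (rep Γ σ)) := by
          rw [map_mul]; rfl
        rw [this, inv_mul_cancel, map_one]; rfl
      rw [h5]
      have h6 : ρ (g σ)⁻¹ (ρ (g σ) (u (rep Γ σ))) ∈ (Submodule.span ℝ (F '' C)).map (ρ (g σ)⁻¹) :=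
        Submodule.mem_map_of_mem hmem
      rw [Submodule.map_span] at h6
      refine Submodule.span_le.2 ?_ h6
      rintro _ ⟨_, ⟨τ, hτ, rfl⟩, rfl⟩
      obtain ⟨c, hc0, h7⟩ := hF.eqv τ (hCS τ hτ) (hCn τ hτ) (g σ)⁻¹
      have h8 : ρ (g σ)⁻¹ (F τ) = c⁻¹ • F (move (g σ)⁻¹ τ) := by
        rw [h7, smul_smul, inv_mul_cancel₀ hc0.ne', one_smul]
      rw [h8]
      refine Submodule.smul_mem _ _ (Submodule.subset_span ⟨move (g σ)⁻¹ τ, ?_, rfl⟩)
      rw [Finset.mem_coe, Finset.mem_map]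
      exact ⟨τ, hτ, rfl⟩
    · rw [h0 σ h] at hmem
      exact hF.ind σ hσ h C hC hmem

/-- **Choice of vectors.** -/
theorem exists_choice {ρ : Γ →* (W →ₗ[ℝ] W)} {S : Set (Finset V)} (hS : Cplx Γ S)
    (hW : ∀ σ ∈ S, ∃ c : Γ → ℝ, (∀ γ, 0 < c γ) ∧ σ.card ≤ Module.finrank ℝ (wt ρ c σ)) :
    ∃ F : Finset V → W, (∀ σ ∈ S, ∀ γ : Γ, ∃ c : ℝ, 0 < c ∧ F (move γ σ) = c • ρ γ (F σ)) ∧
      ∀ σ ∈ S, ∀ C, Flag σ C → F σ ∉ Submodule.span ℝ (F '' C) := by
  have h1 : ∀ n : ℕ, ∃ F : Finset V → W, Good ρ S n F := by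
    intro n
    induction n with
    | zero =>
      refine ⟨fun _ => 0, fun σ hσ h => ?_, fun σ hσ h => ?_⟩
      all_goals
        have := Finset.card_pos.2 (hS.ne σ hσ)
        omega
    | succ n ih =>
      obtain ⟨F, hF⟩ := ih
      exact step hS hW hF
  obtain ⟨F, hF⟩ := h1 (Module.finrank ℝ W)
  have h2 : ∀ σ ∈ S, σ.card ≤ Module.finrank ℝ W := by
    intro σ hσ
    obtain ⟨c, _, h⟩ := hW σ hσ
    exact h.trans (Submodule.finrank_le _)
  exact ⟨F, fun σ hσ => hF.eqv σ hσ (h2 σ hσ), fun σ hσ => hF.ind σ hσ (h2 σ hσ)⟩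

omit [FiniteDimensional ℝ W] in
/-- positive combinations over a chain do not vanish -/
theorem sum_ne_zero {S : Set (Finset V)} {F : Finset V → W}
    (hS : ∀ σ ∈ S, σ.Nonempty)
    (hF : ∀ σ ∈ S, ∀ C, Flag σ C → F σ ∉ Submodule.span ℝ (F '' C)) {D : Finset (Finset V)}
    (hD : D.Nonempty) (hDS : ∀ σ ∈ D, σ ∈ S) (hch : ∀ σ ∈ D, ∀ τ ∈ D, σ ⊆ τ ∨ τ ⊆ σ)
    {a : Finset V → ℝ} (ha : ∀ σ ∈ D, 0 < a σ) : ∑ σ ∈ D, a σ • F σ ≠ 0 := by
  classical
  obtain ⟨σ, hσ, hmax⟩ := D.exists_max_image Finset.card hD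
  have hfl : Flag σ (D.erase σ) := by
    refine ⟨fun τ hτ => ?_, fun τ hτ υ hυ => hch τ (Finset.mem_of_mem_erase hτ) υ (Finset.mem_of_mem_erase hυ)⟩
    have h1 := Finset.mem_of_mem_erase hτ
    refine ⟨hS τ (hDS τ h1), ?_⟩
    have h2 : τ ⊆ σ := by
      rcases hch τ h1 σ hσ with h | h
      · exact h
      · rw [Finset.eq_of_subset_of_card_le h (hmax τ h1)]
    exact Finset.ssubset_iff_subset_ne.2 ⟨h2, Finset.ne_of_mem_erase hτ⟩
  intro h0
  refine hF σ (hDS σ hσ) _ hfl ?_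
  rw [← Finset.add_sum_erase D _ hσ] at h0
  have h1 : F σ = -((a σ)⁻¹ • ∑ τ ∈ D.erase σ, a τ • F τ) := by
    have h2 : a σ • F σ = -∑ τ ∈ D.erase σ, a τ • F τ := eq_neg_of_add_eq_zero_left h0
    rw [← smul_neg, ← h2, smul_smul, inv_mul_cancel₀ (ha σ hσ).ne', one_smul]
  rw [h1]
  refine Submodule.neg_mem _ (Submodule.smul_mem _ _ (Submodule.sum_mem _ fun τ hτ =>
    Submodule.smul_mem _ _ (Submodule.subset_span ⟨τ, hτ, rfl⟩)))

end Pool.Agent.H488.CC
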