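import Pool.Agent.H488.CC.Main

/-!
# Finite coverings, and vector fields from forms
-/

set_option autoImplicit false

namespace Pool.Agent.H488.CC

open Set Topology
open Pool.Agent.W689.Ch (AffMfd locComp)

variable {X Γ E : Type} [TopologicalSpace X] [Group Γ] [MulAction Γ X]
  [NormedAddCommGroup E] [NormedSpace ℝ E]
  {dev : X → E} {hol : Γ →* (E ≃ᵃ[ℝ] E)}

/-- finite coverings of closed affine manifolds -/
theorem aff_sub (D : AffMfd X Γ E dev hol) (K : Subgroup Γ) (hK : K.FiniteIndex) :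
    AffMfd X K E dev (hol.comp K.subtype) := by
  refine ⟨D.loc, fun γ => D.cont γ.1, fun γ x => D.equi γ.1 x, fun C hC => ?_, ?_⟩
  · have h1 := D.pd C hC
    exact h1.preimage (f := fun γ : K => γ.1) fun a _ b _ h => Subtype.ext h
  · obtain ⟨C, hC, hcov⟩ := D.cc
    have hfin : Finite (Γ ⧸ K) := Subgroup.finite_quotient_of_finiteIndex
    refine ⟨⋃ q : Γ ⧸ K, (fun x : X => (q.out)⁻¹ • x) '' C, isCompact_iUnion fun q => hC.image (D.cont _), ?_⟩
    intro x
    obtain ⟨γ, k, hk, hx⟩ := hcov x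
    let q : Γ ⧸ K := QuotientGroup.mk γ⁻¹
    have h1 : (QuotientGroup.mk q.out : Γ ⧸ K) = QuotientGroup.mk γ⁻¹ := QuotientGroup.out_eq' q
    have h2 : (q.out)⁻¹ * γ⁻¹ ∈ K := QuotientGroup.eq.1 h1
    have h3 : γ * q.out ∈ K := by
      have := K.inv_mem h2
      rwa [mul_inv_rev, inv_inv, inv_inv] at this
    refine ⟨⟨γ * q.out, h3⟩, (q.out)⁻¹ • k, mem_iUnion.2 ⟨q, k, hk, rfl⟩, ?_⟩
    show (γ * q.out) • (q.out)⁻¹ • k = x
    rw [mul_smul, smul_inv_smul, hx]

/-- the linear holonomy -/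
def rhoE (hol : Γ →* (E ≃ᵃ[ℝ] E)) : Γ →* (E →ₗ[ℝ] E) where
  toFun γ := ((hol γ).linear : E →ₗ[ℝ] E)
  map_one' := by rw [map_one]; rfl
  map_mul' γ δ := by rw [map_mul]; rfl

variable [FiniteDimensional ℝ E]

/-- the linear holonomy as a continuous linear map -/
noncomputable def linC (hol : Γ →* (E ≃ᵃ[ℝ] E)) (γ : Γ) : E →L[ℝ] E :=
  LinearMap.toContinuousLinearMap (rhoE hol γ)

theorem linC_apply (hol : Γ →* (E ≃ᵃ[ℝ] E)) (γ : Γ) (u : E) : linC hol γ u = (hol γ).linear u := rfl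

theorem linC_mul (hol : Γ →* (E ≃ᵃ[ℝ] E)) (γ δ : Γ) : linC hol (γ * δ) = (linC hol γ).comp (linC hol δ) := by
  ext u
  show rhoE hol (γ * δ) u = rhoE hol γ (rhoE hol δ u)
  rw [map_mul]; rfl

theorem linC_one (hol : Γ →* (E ≃ᵃ[ℝ] E)) : linC hol 1 = ContinuousLinearMap.id ℝ E := by
  ext u
  show rhoE hol 1 u = u
  rw [map_one]; rfl

theorem linC_inv_comp (hol : Γ →* (E ≃ᵃ[ℝ] E)) (γ : Γ) :
    (linC hol γ⁻¹).comp (linC hol γ) = ContinuousLinearMap.id ℝ E := by
  rw [← linC_mul, inv_mul_cancel, linC_one]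

theorem linC_comp_inv (hol : Γ →* (E ≃ᵃ[ℝ] E)) (γ : Γ) :
    (linC hol γ).comp (linC hol γ⁻¹) = ContinuousLinearMap.id ℝ E := by
  rw [← linC_mul, mul_inv_cancel, linC_one]

/-- the dual of the linear holonomy -/
noncomputable def rhoD (hol : Γ →* (E ≃ᵃ[ℝ] E)) : Γ →* ((E →L[ℝ] ℝ) →ₗ[ℝ] (E →L[ℝ] ℝ)) where
  toFun γ :=
    { toFun := fun l => l.comp (linC hol γ⁻¹)
      map_add' := fun _ _ => rfl
      map_smul' := fun _ _ => rfl }
  map_one' := by
    ext l u
    show l (linC hol (1 : Γ)⁻¹ u) = l u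
    rw [inv_one, linC_one]; rfl
  map_mul' γ δ := by
    ext l u
    show l (linC hol (γ * δ)⁻¹ u) = l (linC hol δ⁻¹ (linC hol γ⁻¹ u))
    rw [mul_inv_rev, linC_mul]; rfl

/-- positive operators from the dual -/
def posOp (E : Type) [NormedAddCommGroup E] [NormedSpace ℝ E] : Set ((E →L[ℝ] ℝ) →L[ℝ] E) :=
  {B | ∀ l : E →L[ℝ] ℝ, l ≠ 0 → 0 < l (B l)}

omit [FiniteDimensional ℝ E] in
theorem convex_posOp : Convex ℝ (posOp E) := by
  intro A hA B hB a b ha hb hab l hl
  show 0 < l (a • A l + b • B l)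
  rw [map_add, map_smul, map_smul, smul_eq_mul, smul_eq_mul]
  have h1 := hA l hl
  have h2 := hB l hl
  rcases eq_or_lt_of_le ha with h3 | h3
  · have : b = 1 := by linarith
    rw [← h3, this]
    linarith
  · have h4 := mul_pos h3 h1
    have h5 := mul_nonneg hb h2.le
    linarith

theorem posOp_nonempty : (posOp E).Nonempty := by
  classical
  let b := Module.finBasis ℝ E
  let B : (E →L[ℝ] ℝ) →ₗ[ℝ] E :=
    { toFun := fun l => ∑ i, l (b i) • b i
      map_add' := fun l m => by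
        rw [← Finset.sum_add_distrib]
        exact Finset.sum_congr rfl fun i _ => by rw [← add_smul]; rfl
      map_smul' := fun c l => by
        rw [Finset.smul_sum]
        exact Finset.sum_congr rfl fun i _ => by rw [smul_smul]; rfl }
  refine ⟨LinearMap.toContinuousLinearMap B, fun l hl => ?_⟩
  show 0 < l (∑ i, l (b i) • b i)
  rw [map_sum]
  have h1 : ∀ i, l (l (b i) • b i) = l (b i) * l (b i) := fun i => by rw [map_smul, smul_eq_mul]
  rw [Finset.sum_congr rfl fun i _ => h1 i]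
  have h2 : ∃ i, l (b i) ≠ 0 := by
    by_contra hcon
    push Not at hcon
    apply hl
    have : (l : E →ₗ[ℝ] ℝ) = 0 := b.ext fun i => by
      show l (b i) = 0
      exact hcon i
    ext u
    exact LinearMap.congr_fun this u
  obtain ⟨i, hi⟩ := h2
  exact Finset.sum_pos' (fun j _ => mul_self_nonneg _) ⟨i, Finset.mem_univ i, mul_self_pos.2 hi⟩

/-- the action on the positive operators -/
@[reducible] noncomputable def actP (hol : Γ →* (E ≃ᵃ[ℝ] E)) : MulAction Γ (posOp E) where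
  smul γ B := ⟨(linC hol γ).comp (B.1.comp ((ContinuousLinearMap.compL ℝ E E ℝ).flip (linC hol γ))), by
    intro l hl
    show 0 < (l.comp (linC hol γ)) (B.1 (l.comp (linC hol γ)))
    refine B.2 _ fun h0 => hl ?_
    have h1 : (l.comp (linC hol γ)).comp (linC hol γ⁻¹) = l := by
      rw [ContinuousLinearMap.comp_assoc, linC_comp_inv, ContinuousLinearMap.comp_id]
    rw [← h1, h0, ContinuousLinearMap.zero_comp]⟩
  one_smul B := by
    apply Subtype.ext
    ext l
    show linC hol 1 (B.1 (l.comp (linC hol 1))) = B.1 l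
    rw [linC_one]; rfl
  mul_smul γ δ B := by
    apply Subtype.ext
    ext l
    show linC hol (γ * δ) (B.1 (l.comp (linC hol (γ * δ)))) =
      linC hol γ (linC hol δ (B.1 ((l.comp (linC hol γ)).comp (linC hol δ))))
    rw [linC_mul]; rfl

variable [T2Space X]

/-- a vector field without zeros from a form without zeros -/
theorem field_of_form (D : AffMfd X Γ E dev hol) (hfree : ∀ γ : Γ, γ ≠ 1 → ∀ x : X, γ • x ≠ x)
    {L : X → E →L[ℝ] ℝ} (hL : Continuous L) (hLe : ∀ (γ : Γ) x, L (γ • x) = rhoD hol γ (L x))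
    (hL0 : ∀ x, L x ≠ 0) :
    ∃ Z : X → E, Continuous Z ∧ (∀ (γ : Γ) x, Z (γ • x) = (hol γ).linear (Z x)) ∧ ∀ x, Z x ≠ 0 := by
  let _ := actP hol
  have : ContractibleSpace (posOp E) := (convex_posOp (E := E)).contractibleSpace posOp_nonempty
  have hc : ∀ γ : Γ, Continuous fun B : posOp E => γ • B := by
    intro γ
    refine Continuous.subtype_mk ?_ _
    exact continuous_const.clm_comp (continuous_subtype_val.clm_comp continuous_const)
  obtain ⟨B, hB, hBe⟩ := Pool.Agent.TH289.N.exists_eqv D hfree (Y := posOp E) hc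
  refine ⟨fun x => (B x).1 (L x), (continuous_subtype_val.comp hB).clm_apply hL, fun γ x => ?_, fun x h0 => ?_⟩
  · show (B (γ • x)).1 (L (γ • x)) = _
    rw [hBe, hLe]
    show linC hol γ ((B x).1 (((L x).comp (linC hol γ⁻¹)).comp (linC hol γ))) = _
    rw [ContinuousLinearMap.comp_assoc, linC_inv_comp, ContinuousLinearMap.comp_id]
    rfl
  · have h1 := (B x).2 (L x) (hL0 x)
    have h2 : (B x).1 (L x) = 0 := h0
    rw [h2, map_zero] at h1
    exact lt_irrefl _ h1

end Pool.Agent.H488.CC
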