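import Pool.Agent.H488.CC.Sub

/-!
# Weight spaces of the stabilizers of simplices
-/

set_option autoImplicit false

namespace Pool.Agent.H488.CC

open Set Topology
open Pool.Agent.W689.Ch (AffMfd locComp)

variable {X Γ E : Type} [TopologicalSpace X] [T2Space X] [Group Γ] [MulAction Γ X]
  [NormedAddCommGroup E] [NormedSpace ℝ E] [FiniteDimensional ℝ E]
  {dev : X → E} {hol : Γ →* (E ≃ᵃ[ℝ] E)}
  {W : Type} [NormedAddCommGroup W] [NormedSpace ℝ W] [FiniteDimensional ℝ W] {V : Type} [MulAction Γ V]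

/-- the origin is not in the convex hull of the rays of a chain -/
theorem zero_notMem {S : Set (Finset V)} {F : Finset V → W} (hS : ∀ σ ∈ S, σ.Nonempty)
    (hF : ∀ σ ∈ S, ∀ C, Flag σ C → F σ ∉ Submodule.span ℝ (F '' C)) {C : Finset (Finset V)}
    (hC : Chain S C) : (0 : W) ∉ convexHull ℝ {u | ∃ σ ∈ C, ∃ c : ℝ, 0 < c ∧ u = c • F σ} := by
  classical
  let P : Set W := {u | ∃ a : Finset V → ℝ, (∀ σ, 0 ≤ a σ) ∧ (∃ σ ∈ C, 0 < a σ) ∧ u = ∑ σ ∈ C, a σ • F σ}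
  have hP : Convex ℝ P := by
    rintro _ ⟨a, ha, ⟨σ, hσ, haσ⟩, rfl⟩ _ ⟨b, hb, ⟨τ, hτ, hbτ⟩, rfl⟩ s t hs ht hst
    refine ⟨fun υ => s * a υ + t * b υ, fun υ => add_nonneg (mul_nonneg hs (ha υ)) (mul_nonneg ht (hb υ)), ?_, ?_⟩
    · rcases eq_or_lt_of_le hs with h | h
      · have h1 : t = 1 := by linarith
        refine ⟨τ, hτ, ?_⟩
        rw [← h, h1]
        linarith
      · exact ⟨σ, hσ, add_pos_of_pos_of_nonneg (mul_pos h haσ) (mul_nonneg ht (hb σ))⟩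
    · rw [Finset.smul_sum, Finset.smul_sum, ← Finset.sum_add_distrib]
      refine Finset.sum_congr rfl fun υ _ => ?_
      rw [smul_smul, smul_smul, add_smul]
  have hsub : {u | ∃ σ ∈ C, ∃ c : ℝ, 0 < c ∧ u = c • F σ} ⊆ P := by
    rintro _ ⟨σ, hσ, c, hc, rfl⟩
    obtain ⟨a, ha⟩ : ∃ a : Finset V → ℝ, a = fun τ => if τ = σ then c else 0 := ⟨_, rfl⟩
    have h1 : a σ = c := by rw [ha]; exact if_pos rfl
    have h2 : ∀ τ, τ ≠ σ → a τ = 0 := fun τ h => by rw [ha]; exact if_neg h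
    refine ⟨a, fun τ => ?_, ⟨σ, hσ, by rw [h1]; exact hc⟩, ?_⟩
    · by_cases h : τ = σ
      · rw [h, h1]; exact hc.le
      · rw [h2 τ h]
    · rw [Finset.sum_eq_single_of_mem σ hσ]
      · rw [h1]
      · intro τ _ h
        rw [h2 τ h, zero_smul]
  intro h0
  obtain ⟨a, ha, ⟨σ, hσ, haσ⟩, h1⟩ := convexHull_min hsub hP h0
  let D : Finset (Finset V) := C.filter fun σ => 0 < a σ
  have h2 : ∑ τ ∈ C, a τ • F τ = ∑ τ ∈ D, a τ • F τ := by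
    symm
    refine Finset.sum_subset (Finset.filter_subset _ _) fun τ hτ hτ' => ?_
    have h3 : a τ = 0 := by
      by_contra hcon
      exact hτ' (Finset.mem_filter.2 ⟨hτ, lt_of_le_of_ne (ha τ) (Ne.symm hcon)⟩)
    rw [h3, zero_smul]
  rw [h2] at h1
  exact sum_ne_zero hS hF (D := D) ⟨σ, Finset.mem_filter.2 ⟨hσ, haσ⟩⟩
    (fun τ hτ => hC.1 τ (Finset.mem_filter.1 hτ).1)
    (fun τ hτ υ hυ => hC.2 τ (Finset.mem_filter.1 hτ).1 υ (Finset.mem_filter.1 hυ).1)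
    (fun τ hτ => (Finset.mem_filter.1 hτ).2) h1.symm

/-- **Sections from weight spaces of the stabilizers.** -/
theorem weights (D : AffMfd X Γ E dev hol) (hfree : ∀ γ : Γ, γ ≠ 1 → ∀ x : X, γ • x ≠ x)
    (ρ : Γ →* (W →ₗ[ℝ] W)) {S : Set (Finset V)} (hS : Cplx Γ S)
    (hW : ∀ σ ∈ S, ∃ c : Γ → ℝ, (∀ γ, 0 < c γ) ∧ σ.card ≤ Module.finrank ℝ (wt ρ c σ))
    {s : X → Realiz S} (hs : Continuous s) (hsx0 : ∀ (γ : Γ) x v, (s (γ • x)).1 v = (s x).1 (γ⁻¹ • v)) :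
    ∃ Z : X → W, Continuous Z ∧ (∀ (γ : Γ) x, Z (γ • x) = ρ γ (Z x)) ∧ ∀ x, Z x ≠ 0 := by
  obtain ⟨F, hF1, hF2⟩ := exists_choice hS hW
  refine principle D hfree ρ hS hs hsx0 (fun σ => {Z : C(X, W) | ∃ c : ℝ, 0 < c ∧ ∀ x, Z x = c • F σ})
    (fun σ _ => ⟨ContinuousMap.const X (F σ), 1, one_pos, fun x => (one_smul ℝ _).symm⟩) ?_ ?_
  · rintro γ σ hσ Z ⟨c, hc, hZ⟩
    obtain ⟨b, hb, h⟩ := hF1 σ hσ γ
    refine ⟨ContinuousMap.const X (ρ γ (c • F σ)), ⟨c / b, div_pos hc hb, fun x => ?_⟩, fun x => ?_⟩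
    · show ρ γ (c • F σ) = (c / b) • F (move γ σ)
      rw [h, smul_smul, div_mul_cancel₀ _ hb.ne', map_smul]
    · show ρ γ (c • F σ) = _
      rw [hZ]
  · intro C hC x h0
    refine zero_notMem hS.ne hF2 hC (convexHull_mono ?_ h0)
    rintro _ ⟨σ, hσ, Z, ⟨c, hc, hZ⟩, rfl⟩
    exact ⟨σ, hσ, c, hc, hZ x⟩

end Pool.Agent.H488.CC
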